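import Pool.Agent.Helper52.IM.Basic

/-!
# Description of the units by a subgroup of the free group
-/

set_option autoImplicit false

namespace IM

open FreeGroup

variable {A : Type*}

section coset

variable (w : List (A × Bool))

/-- The vertex reached by reading `p`. -/
def pt (p : List (A × Bool)) : FreeGroup A ⧸ Ninf w :=
  QuotientGroup.mk (FreeGroup.mk p)⁻¹

theorem pt_eq_iff (p p' : List (A × Bool)) :
    pt w p = pt w p' ↔ (FreeGroup.mk p : FreeGroup A) * (FreeGroup.mk p')⁻¹ ∈ Ninf w := by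
  unfold pt
  rw [QuotientGroup.eq, inv_inv]

theorem pt_append (p u : List (A × Bool)) :
    pt w (p ++ u) = (FreeGroup.mk u : FreeGroup A)⁻¹ • pt w p := by
  unfold pt
  rw [← FreeGroup.mul_mk, mul_inv_rev]
  rfl

theorem pt_congr {p p' : List (A × Bool)} (h : (FreeGroup.mk p : FreeGroup A) = FreeGroup.mk p') :
    pt w p = pt w p' := by
  unfold pt
  rw [h]

/-- The vertices given by right units. -/
def Vx : Type _ := {v : FreeGroup A ⧸ Ninf w // ∃ p ∈ RU w, pt w p = v}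

/-- The edges given by right units. -/
def Rx (x : A × Bool) (a b : Vx w) : Prop :=
  ∃ p, p ∈ RU w ∧ p ++ [x] ∈ RU w ∧ pt w p = a.1 ∧ pt w (p ++ [x]) = b.1

theorem Rx_smul {x : A × Bool} {a b : Vx w} (h : Rx w x a b) :
    b.1 = (FreeGroup.mk [x] : FreeGroup A)⁻¹ • a.1 := by
  obtain ⟨p, _, _, h1, h2⟩ := h
  rw [← h1, ← h2, pt_append]

theorem rel_smul (u : List (A × Bool)) {a b : Vx w} (h : rel (Rx w) u a b) :
    b.1 = (FreeGroup.mk u : FreeGroup A)⁻¹ • a.1 := by
  induction u generalizing a with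
  | nil =>
    have h' : a = b := h
    rw [h', ← FreeGroup.one_eq_mk, inv_one, one_smul]
  | cons x u ih =>
    obtain ⟨c, h1, h2⟩ := h
    rw [ih h2, Rx_smul w h1, mk_cons x u, mul_inv_rev, mul_smul]

theorem Rx_flip_aux {x : A × Bool} {a b : Vx w} (h : Rx w x b a) : Rx w (flip x) a b := by
  obtain ⟨p, h1, h2, h3, h4⟩ := h
  have hc := cls_back w h2
  refine ⟨p ++ [x], h2, ru_congr w h1 hc.symm, h4, ?_⟩
  rw [← h3]
  apply pt_congr
  rw [← FreeGroup.mul_mk, ← FreeGroup.mul_mk, mk_flip, mul_inv_cancel_right]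

theorem Rx_flip (x : A × Bool) (a b : Vx w) : Rx w (flip x) a b ↔ Rx w x b a := by
  constructor
  · intro h
    have := Rx_flip_aux w h
    rwa [flip_flip] at this
  · exact Rx_flip_aux w

theorem rel_of_ru (u : List (A × Bool)) {p : List (A × Bool)} (hp : p ∈ RU w)
    (hpu : p ++ u ∈ RU w) : rel (Rx w) u ⟨pt w p, p, hp, rfl⟩ ⟨pt w (p ++ u), p ++ u, hpu, rfl⟩ := by
  induction u generalizing p with
  | nil =>
    show (⟨pt w p, p, hp, rfl⟩ : Vx w) = ⟨pt w (p ++ []), p ++ [], hpu, rfl⟩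
    apply Subtype.ext
    simp
  | cons x u ih =>
    have hpx : p ++ [x] ∈ RU w := by
      apply ru_prefix w (u := u)
      simpa using hpu
    have hpxu : (p ++ [x]) ++ u ∈ RU w := by simpa using hpu
    refine ⟨⟨pt w (p ++ [x]), p ++ [x], hpx, rfl⟩, ⟨p, hp, hpx, rfl, rfl⟩, ?_⟩
    have h1 := ih hpx hpxu
    have h2 : (⟨pt w (p ++ x :: u), p ++ x :: u, hpu, rfl⟩ : Vx w) =
        ⟨pt w ((p ++ [x]) ++ u), (p ++ [x]) ++ u, hpxu, rfl⟩ := by
      apply Subtype.ext
      simp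
    rw [h2]
    exact h1

theorem rel_w (a : Vx w) : rel (Rx w) w a a := by
  obtain ⟨v, p, hp, rfl⟩ := a
  have h1 := rel_of_ru w w hp (ru_append w hp (ru_self w))
  have h2 : (⟨pt w (p ++ w), p ++ w, ru_append w hp (ru_self w), rfl⟩ : Vx w) =
      ⟨pt w p, p, hp, rfl⟩ := by
    apply Subtype.ext
    show pt w (p ++ w) = pt w p
    rw [pt_eq_iff, ← FreeGroup.mul_mk]
    exact Subgroup.subset_closure ⟨p, hp, rfl⟩
  rw [h2] at h1
  exact h1

/-- A word representing the identity lies in `Ninf`. -/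
theorem mem_Ninf_of_cls {u : List (A × Bool)} (h : cls w u = 1) :
    (FreeGroup.mk u : FreeGroup A) ∈ Ninf w := by
  have h1 := act_principle w (Rx w) (Rx_flip w)
    (fun x a b c hb hc => Subtype.ext ((Rx_smul w hb).trans (Rx_smul w hc).symm)) (rel_w w)
    (u := u) (v := []) (by rw [h, cls_nil])
  let x0 : Vx w := ⟨pt w [], [], ru_nil w, rfl⟩
  have h2 : rel (Rx w) u x0 x0 := by
    rw [h1]
    exact rfl
  have h3 := rel_smul w u h2
  have h4 : pt w [] = pt w ([] ++ u) := by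
    rw [pt_append]
    exact h3
  rw [pt_eq_iff] at h4
  have h5 := (Ninf w).inv_mem h4
  simpa [← FreeGroup.one_eq_mk] using h5

/-- The defining generators are trivial. -/
theorem cls_conj {p : List (A × Bool)} (hp : p ∈ RU w) :
    cls w (p ++ w ++ FreeGroup.invRev p) = 1 := by
  rw [cls_append, cls_append, cls_self, mul_one, ru_inv w hp]

end coset

theorem units_desc {A : Type*} (w : List (A × Bool)) (U₀ : Subgroup (OneRelInverseMonoid w)ˣ) :
    ∃ (Y : Subgroup (FreeGroup A)) (ψ : Y →* U₀), Function.Surjective ψ ∧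
      (∀ g, g ∈ Y ↔ ∃ u : List (A × Bool), ∃ x ∈ U₀, FreeGroup.mk u = g ∧ cls w u = (x : OneRelInverseMonoid w)) ∧
      (∀ (u : List (A × Bool)) (x : U₀) (h : FreeGroup.mk u ∈ Y),
        cls w u = ((x : (OneRelInverseMonoid w)ˣ) : OneRelInverseMonoid w) → ψ ⟨FreeGroup.mk u, h⟩ = x) ∧
      (∀ y : Y, ψ y = 1 ↔ (y : FreeGroup A) ∈ Ninf w) ∧ Ninf w ≤ Y := by
  classical
  have hinv : ∀ (u : List (A × Bool)) (x : (OneRelInverseMonoid w)ˣ),
      cls w u = (x : OneRelInverseMonoid w) →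
      cls w (FreeGroup.invRev u) = ((x⁻¹ : (OneRelInverseMonoid w)ˣ) : OneRelInverseMonoid w) := by
    intro u x h
    have h1 := ru_inv w (ru_of_unit w x h)
    rw [h] at h1
    exact (Units.inv_eq_of_mul_eq_one_right h1).symm
  let Y : Subgroup (FreeGroup A) :=
    { carrier := {g | ∃ u : List (A × Bool), ∃ x ∈ U₀, FreeGroup.mk u = g ∧
        cls w u = (x : OneRelInverseMonoid w)}
      one_mem' := ⟨[], 1, U₀.one_mem, FreeGroup.one_eq_mk.symm, by rw [cls_nil, Units.val_one]⟩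
      mul_mem' := by
        rintro g h ⟨u, x, hx, rfl, hu⟩ ⟨v, y, hy, rfl, hv⟩
        exact ⟨u ++ v, x * y, U₀.mul_mem hx hy, by rw [FreeGroup.mul_mk],
          by rw [cls_append, hu, hv, Units.val_mul]⟩
      inv_mem' := by
        rintro g ⟨u, x, hx, rfl, hu⟩
        exact ⟨FreeGroup.invRev u, x⁻¹, U₀.inv_mem hx, FreeGroup.inv_mk.symm, hinv u x hu⟩ }
  have hY : ∀ g, g ∈ Y ↔ ∃ u : List (A × Bool), ∃ x ∈ U₀, FreeGroup.mk u = g ∧
      cls w u = (x : OneRelInverseMonoid w) := fun g => Iff.rfl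
  choose fu fx hfx hfu hfc using fun y : Y => (hY y.1).1 y.2
  -- well definedness
  have hwd : ∀ (y : Y) (u : List (A × Bool)) (x : (OneRelInverseMonoid w)ˣ),
      FreeGroup.mk u = (y : FreeGroup A) → cls w u = (x : OneRelInverseMonoid w) → fx y = x := by
    intro y u x h1 h2
    apply Units.ext
    rw [← hfc y, ← h2]
    exact cls_eq_of_mk_eq w (ru_of_unit w _ (hfc y)) (ru_of_unit w x h2)
      ((hfu y).trans h1.symm)
  let ψ : Y →* U₀ :=
    { toFun := fun y => ⟨fx y, hfx y⟩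
      map_one' := by
        apply Subtype.ext
        exact hwd 1 [] 1 FreeGroup.one_eq_mk.symm (by rw [cls_nil, Units.val_one])
      map_mul' := by
        intro y z
        apply Subtype.ext
        exact hwd (y * z) (fu y ++ fu z) (fx y * fx z)
          (by rw [← FreeGroup.mul_mk, hfu y, hfu z]; rfl)
          (by rw [cls_append, hfc y, hfc z, Units.val_mul]) }
  have hψ : ∀ (u : List (A × Bool)) (x : U₀) (h : FreeGroup.mk u ∈ Y),
      cls w u = ((x : (OneRelInverseMonoid w)ˣ) : OneRelInverseMonoid w) →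
        ψ ⟨FreeGroup.mk u, h⟩ = x := by
    intro u x h hu
    apply Subtype.ext
    exact hwd _ u x rfl hu
  -- the subgroup `Ninf`
  have hker : Ninf w ≤ ψ.ker.map Y.subtype := by
    unfold Ninf
    rw [Subgroup.closure_le]
    rintro g ⟨p, hp, rfl⟩
    have hc := cls_conj w hp
    have hg : (FreeGroup.mk (p ++ w ++ FreeGroup.invRev p) : FreeGroup A) =
        FreeGroup.mk p * FreeGroup.mk w * (FreeGroup.mk p)⁻¹ := by
      rw [← FreeGroup.mul_mk, ← FreeGroup.mul_mk, FreeGroup.inv_mk]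
    have hmem : (FreeGroup.mk (p ++ w ++ FreeGroup.invRev p) : FreeGroup A) ∈ Y :=
      ⟨_, 1, U₀.one_mem, rfl, by rw [hc, Units.val_one]⟩
    refine ⟨⟨_, hmem⟩, ?_, hg⟩
    show ⟨_, hmem⟩ ∈ ψ.ker
    rw [MonoidHom.mem_ker]
    exact hψ _ 1 hmem (by rw [hc]; rfl)
  refine ⟨Y, ψ, ?_, hY, hψ, ?_, ?_⟩
  · intro x
    obtain ⟨u, hu⟩ := cls_surj w ((x : (OneRelInverseMonoid w)ˣ) : OneRelInverseMonoid w)
    have hmem : (FreeGroup.mk u : FreeGroup A) ∈ Y := ⟨u, x, x.2, rfl, hu⟩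
    exact ⟨⟨_, hmem⟩, hψ u x hmem hu⟩
  · intro y
    constructor
    · intro h
      have h1 : fx y = 1 := congrArg Subtype.val h
      have h2 : cls w (fu y) = 1 := by rw [hfc y, h1, Units.val_one]
      have h3 := mem_Ninf_of_cls w h2
      rwa [hfu y] at h3
    · intro h
      obtain ⟨z, hz1, hz2⟩ := hker h
      have h3 : z = y := Subtype.ext hz2
      rw [← h3]
      exact hz1
  · intro g hg
    obtain ⟨z, _, hz2⟩ := hker hg
    rw [← hz2]
    exact z.2

end IM
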