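import Pool.Agent.Helper23.IM.Defs

/-!
# Basic facts on one-relator inverse monoids and the action principle
-/

set_option autoImplicit false

namespace IM

open FreeGroup

variable {A : Type*}

section basic

variable (w : List (A × Bool))

theorem cls_append (u v : List (A × Bool)) : cls w (u ++ v) = cls w u * cls w v := rfl

theorem cls_nil : cls w [] = 1 := rfl

theorem cls_surj (m : OneRelInverseMonoid w) : ∃ u, cls w u = m := by
  induction m using Con.induction_on with
  | H m =>
    induction m using Con.induction_on with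
    | H u => exact ⟨FreeMonoid.toList u, rfl⟩

theorem cls_self : cls w w = 1 := by
  apply (Con.eq _).2
  exact ConGen.Rel.of _ _ ⟨rfl, rfl⟩

theorem mk_eq_of_rel {u v : List (A × Bool)}
    (h : VagnerRel A (FreeMonoid.ofList u) (FreeMonoid.ofList v)) :
    (FreeInverseMonoid.mk u : FreeInverseMonoid A) = FreeInverseMonoid.mk v :=
  (Con.eq _).2 (ConGen.Rel.of _ _ h)

theorem cls_eq_of_rel {u v : List (A × Bool)}
    (h : VagnerRel A (FreeMonoid.ofList u) (FreeMonoid.ofList v)) : cls w u = cls w v := by
  unfold cls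
  rw [mk_eq_of_rel h]

theorem cls_idem (u : List (A × Bool)) :
    cls w u * cls w (FreeGroup.invRev u) * cls w u = cls w u := by
  rw [← cls_append, ← cls_append]
  exact cls_eq_of_rel w (VagnerRel.idem u)

theorem cls_comm (u v : List (A × Bool)) :
    cls w u * cls w (FreeGroup.invRev u) * (cls w v * cls w (FreeGroup.invRev v)) =
    cls w v * cls w (FreeGroup.invRev v) * (cls w u * cls w (FreeGroup.invRev u)) := by
  simp only [← cls_append]
  exact cls_eq_of_rel w (VagnerRel.comm u v)

/-- The universal property. -/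
theorem exists_lift {T : Type*} [Monoid T] (Φ : FreeMonoid (A × Bool) →* T)
    (h : ∀ u v, VagnerRel A u v → Φ u = Φ v) (hw : Φ (FreeMonoid.ofList w) = 1) :
    ∃ Ψ : OneRelInverseMonoid w →* T, ∀ u, Ψ (cls w u) = Φ (FreeMonoid.ofList u) := by
  have h1 : conGen (VagnerRel A) ≤ Con.ker Φ := by
    rw [Con.conGen_le]
    intro u v huv
    exact h u v huv
  let Ψ0 : FreeInverseMonoid A →* T := (conGen (VagnerRel A)).lift Φ h1
  have h0 : ∀ u, Ψ0 (FreeInverseMonoid.mk u) = Φ (FreeMonoid.ofList u) := fun u => rfl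
  have h2 : (conGen fun x y : FreeInverseMonoid A => x = FreeInverseMonoid.mk w ∧ y = 1) ≤
      Con.ker Ψ0 := by
    rw [Con.conGen_le]
    rintro x y ⟨rfl, rfl⟩
    show Ψ0 (FreeInverseMonoid.mk w) = Ψ0 1
    rw [h0, hw]
    exact (_root_.map_one Ψ0).symm
  exact ⟨Con.lift _ Ψ0 h2, fun u => rfl⟩

end basic

section rel

variable {X : Type*}

/-- The composite of the relations `R x` along a word. -/
def rel (R : A × Bool → X → X → Prop) : List (A × Bool) → X → X → Prop
  | [], a, b => a = b
  | x :: u, a, c => ∃ b, R x a b ∧ rel R u b c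

theorem rel_append (R : A × Bool → X → X → Prop) (u v : List (A × Bool)) (a c : X) :
    rel R (u ++ v) a c ↔ ∃ b, rel R u a b ∧ rel R v b c := by
  induction u generalizing a with
  | nil => simp [rel]
  | cons x u ih =>
    simp only [List.cons_append, rel, ih]
    constructor
    · rintro ⟨b, h1, b', h2, h3⟩
      exact ⟨b', ⟨b, h1, h2⟩, h3⟩
    · rintro ⟨b', ⟨b, h1, h2⟩, h3⟩
      exact ⟨b, h1, b', h2, h3⟩

theorem rel_fun (R : A × Bool → X → X → Prop) (hf : ∀ x a b c, R x a b → R x a c → b = c)
    (u : List (A × Bool)) (a b c : X) (h : rel R u a b) (h' : rel R u a c) : b = c := by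
  induction u generalizing a with
  | nil => exact h.symm.trans h'
  | cons x u ih =>
    obtain ⟨d, h1, h2⟩ := h
    obtain ⟨d', h1', h2'⟩ := h'
    have := hf x a d d' h1 h1'
    subst this
    exact ih d h2 h2'

theorem rel_invRev (R : A × Bool → X → X → Prop) (hs : ∀ x a b, R (flip x) a b ↔ R x b a)
    (u : List (A × Bool)) (a b : X) : rel R (FreeGroup.invRev u) a b ↔ rel R u b a := by
  induction u generalizing a b with
  | nil => simp [rel, eq_comm]
  | cons x u ih =>
    rw [invRev_cons', rel_append]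
    simp only [rel, ih, hs, exists_eq_right]
    constructor
    · rintro ⟨c, h1, h2⟩
      exact ⟨c, h2, h1⟩
    · rintro ⟨c, h1, h2⟩
      exact ⟨c, h2, h1⟩

/-- The action principle. -/
theorem act_principle (w : List (A × Bool)) (R : A × Bool → X → X → Prop)
    (hs : ∀ x a b, R (flip x) a b ↔ R x b a) (hf : ∀ x a b c, R x a b → R x a c → b = c)
    (hw : ∀ a, rel R w a a) {u v : List (A × Bool)} (huv : cls w u = cls w v) :
    rel R u = rel R v := by
  have hfun := rel_fun R hf
  have hinv := rel_invRev R hs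
  have hinj : ∀ (u : List (A × Bool)) (a b c : X), rel R u a c → rel R u b c → a = b := by
    intro u a b c h1 h2
    exact hfun (FreeGroup.invRev u) c a b ((hinv u c a).2 h1) ((hinv u c b).2 h2)
  -- the representation
  let Φ : FreeMonoid (A × Bool) →* Function.End (Set X) :=
    { toFun := fun u S => {a | ∃ b, rel R (FreeMonoid.toList u) a b ∧ b ∈ S}
      map_one' := by
        funext S
        ext a
        show (∃ b, rel R (FreeMonoid.toList 1) a b ∧ b ∈ S) ↔ a ∈ S
        simp [rel, FreeMonoid.toList_one]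
      map_mul' := by
        intro u v
        funext S
        ext a
        show (∃ b, rel R (FreeMonoid.toList (u * v)) a b ∧ b ∈ S) ↔
          ∃ b, rel R (FreeMonoid.toList u) a b ∧ ∃ c, rel R (FreeMonoid.toList v) b c ∧ c ∈ S
        rw [FreeMonoid.toList_mul]
        simp only [rel_append]
        constructor
        · rintro ⟨c, ⟨b, h1, h2⟩, h3⟩
          exact ⟨b, h1, c, h2, h3⟩
        · rintro ⟨b, h1, c, h2, h3⟩
          exact ⟨c, ⟨b, h1, h2⟩, h3⟩ }
  have hΦ : ∀ u v : List (A × Bool), rel R u = rel R v ↔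
      Φ (FreeMonoid.ofList u) = Φ (FreeMonoid.ofList v) := by
    intro u v
    constructor
    · intro h
      funext S
      show {a | ∃ b, rel R u a b ∧ b ∈ S} = {a | ∃ b, rel R v a b ∧ b ∈ S}
      rw [h]
    · intro h
      funext a c
      have h1 := congrFun h {c}
      have h2 : a ∈ {a | ∃ b, rel R u a b ∧ b ∈ ({c} : Set X)} ↔
          a ∈ {a | ∃ b, rel R v a b ∧ b ∈ ({c} : Set X)} := by
        have h3 : {a | ∃ b, rel R u a b ∧ b ∈ ({c} : Set X)} =
          {a | ∃ b, rel R v a b ∧ b ∈ ({c} : Set X)} := h1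
        rw [h3]
      simpa using h2
  obtain ⟨Ψ, hΨ⟩ := exists_lift w Φ (by
    intro u v huv
    cases huv with
    | idem u =>
      rw [← hΦ]
      funext a d
      apply propext
      rw [rel_append]
      constructor
      · rintro ⟨c, h1, h2⟩
        rw [rel_append] at h1
        obtain ⟨b, h3, h4⟩ := h1
        rw [hinv] at h4
        rw [hinj u a c b h3 h4]
        exact h2
      · intro h
        refine ⟨a, ?_, h⟩
        rw [rel_append]
        exact ⟨d, h, (hinv u d a).2 h⟩
    | comm u v =>
      rw [← hΦ]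
      have key : ∀ (u : List (A × Bool)) (a b : X), rel R (u ++ FreeGroup.invRev u) a b ↔
          a = b ∧ ∃ c, rel R u a c := by
        intro u a b
        rw [rel_append]
        constructor
        · rintro ⟨c, h1, h2⟩
          rw [hinv] at h2
          exact ⟨hinj u a b c h1 h2, c, h1⟩
        · rintro ⟨rfl, c, h1⟩
          exact ⟨c, h1, (hinv u c a).2 h1⟩
      funext a d
      apply propext
      rw [rel_append, rel_append]
      simp only [key]
      constructor
      · rintro ⟨b, ⟨rfl, h1⟩, rfl, h2⟩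
        exact ⟨a, ⟨rfl, h2⟩, rfl, h1⟩
      · rintro ⟨b, ⟨rfl, h1⟩, rfl, h2⟩
        exact ⟨a, ⟨rfl, h2⟩, rfl, h1⟩) (by
    have : Φ (FreeMonoid.ofList w) = Φ (FreeMonoid.ofList []) := by
      rw [← hΦ]
      funext a b
      apply propext
      constructor
      · intro h
        exact hfun w a a b (hw a) h
      · intro h
        have h' : a = b := h
        rw [← h']
        exact hw a
    rw [this]
    exact _root_.map_one Φ)
  rw [hΦ, ← hΨ, ← hΨ, huv]

end rel

section units

variable (w : List (A × Bool))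

theorem ru_inv {p : List (A × Bool)} (hp : p ∈ RU w) :
    cls w p * cls w (FreeGroup.invRev p) = 1 := by
  obtain ⟨m, hm⟩ := hp
  calc cls w p * cls w (FreeGroup.invRev p) =
      cls w p * cls w (FreeGroup.invRev p) * (cls w p * m) := by rw [hm, mul_one]
    _ = (cls w p * cls w (FreeGroup.invRev p) * cls w p) * m := by simp only [mul_assoc]
    _ = 1 := by rw [cls_idem, hm]

theorem ru_prefix {p u : List (A × Bool)} (h : p ++ u ∈ RU w) : p ∈ RU w := by
  obtain ⟨m, hm⟩ := h
  rw [cls_append, mul_assoc] at hm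
  exact ⟨_, hm⟩

theorem ru_nil : ([] : List (A × Bool)) ∈ RU w := ⟨1, by rw [cls_nil, one_mul]⟩

theorem ru_self : w ∈ RU w := ⟨1, by rw [cls_self, one_mul]⟩

theorem ru_append {p p' : List (A × Bool)} (h : p ∈ RU w) (h' : p' ∈ RU w) : p ++ p' ∈ RU w := by
  obtain ⟨m, hm⟩ := h
  obtain ⟨m', hm'⟩ := h'
  refine ⟨m' * m, ?_⟩
  rw [cls_append, mul_assoc, ← mul_assoc (cls w p') m' m, hm', one_mul, hm]

/-- `[p a a⁻¹] = [p]` when `p a` is a right unit. -/
theorem cls_back {p : List (A × Bool)} {x : A × Bool} (h : p ++ [x] ∈ RU w) :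
    cls w (p ++ [x] ++ [flip x]) = cls w p := by
  have hp := ru_inv w h
  have h1 : FreeGroup.invRev (p ++ [x]) = [flip x] ++ FreeGroup.invRev p := by
    rw [FreeGroup.invRev_append]
    rfl
  rw [h1] at hp
  have h2 : FreeGroup.invRev [x] = [flip x] := rfl
  have hc := cls_comm w [x] (FreeGroup.invRev p)
  rw [FreeGroup.invRev_invRev, h2] at hc
  have hi := cls_idem w p
  simp only [cls_append] at hp ⊢
  calc cls w p * cls w [x] * cls w [flip x]
      = (cls w p * cls w (FreeGroup.invRev p) * cls w p) * cls w [x] * cls w [flip x] := by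
        rw [hi]
    _ = cls w p * (cls w (FreeGroup.invRev p) * cls w p * (cls w [x] * cls w [flip x])) := by
        simp only [mul_assoc]
    _ = cls w p * (cls w [x] * cls w [flip x] * (cls w (FreeGroup.invRev p) * cls w p)) := by
        rw [hc]
    _ = (cls w p * cls w [x] * (cls w [flip x] * cls w (FreeGroup.invRev p))) * cls w p := by
        simp only [mul_assoc]
    _ = cls w p := by rw [hp, one_mul]

theorem cls_step {u u' : List (A × Bool)} (hu : u ∈ RU w) (h : FreeGroup.Red.Step u u') :
    cls w u = cls w u' := by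
  cases h with
  | @not L₁ L₂ a b =>
    have h1 : L₁ ++ (a, b) :: (a, !b) :: L₂ = (L₁ ++ [(a, b)] ++ [flip (a, b)]) ++ L₂ := by
      simp [flip]
    have h2 : L₁ ++ [(a, b)] ∈ RU w := by
      apply ru_prefix w (u := (a, !b) :: L₂)
      simpa using hu
    rw [h1, cls_append, cls_back w h2, cls_append]

theorem cls_red {u u' : List (A × Bool)} (hu : u ∈ RU w) (h : FreeGroup.Red u u') :
    cls w u = cls w u' := by
  induction h with
  | refl => rfl
  | tail _ h ih =>
    rw [ih]
    apply cls_step w _ h
    obtain ⟨m, hm⟩ := hu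
    exact ⟨m, by rw [← ih, hm]⟩

/-- Right units with the same image in the free group are equal. -/
theorem cls_eq_of_mk_eq {u v : List (A × Bool)} (hu : u ∈ RU w) (hv : v ∈ RU w)
    (h : (FreeGroup.mk u : FreeGroup A) = FreeGroup.mk v) : cls w u = cls w v := by
  obtain ⟨c, h1, h2⟩ := FreeGroup.Red.exact.1 h
  rw [cls_red w hu h1, cls_red w hv h2]

theorem ru_congr {u v : List (A × Bool)} (hu : u ∈ RU w) (h : cls w u = cls w v) : v ∈ RU w := by
  obtain ⟨m, hm⟩ := hu
  exact ⟨m, by rw [← h, hm]⟩

theorem ru_of_unit {u : List (A × Bool)} (x : (OneRelInverseMonoid w)ˣ)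
    (h : cls w u = (x : OneRelInverseMonoid w)) : u ∈ RU w :=
  ⟨((x⁻¹ : (OneRelInverseMonoid w)ˣ) : OneRelInverseMonoid w), by rw [h, Units.mul_inv]⟩

end units

end IM
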